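import Pool.Agent.J6H1.ZMG.ZL
import Pool.Agent.J6H72.ZM.Sm
import Pool.Agent.Y969.GP.Fin3
import Pool.Agent.Y969.GP.BR5
import Pool.Agent.Y125.GP.VAR
import Pool.Agent.Y125.GP.LSW
import Pool.Agent.Y434.GP.RPL
import Pool.Agent.Y891.GP.AFE
import Pool.Agent.Y587.GP.Chi
import Pool.Agent.Y587.GP.V
import Pool.Agent.Y379.GP.Sp
import Pool.Agent.Y379.GP.Off
import Pool.Agent.Y545.GP.CR
import Pool.Agent.Y155.GP.D1
import Pool.Agent.Y22.GP.Tel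
import Pool.Agent.Y321.GP.FD
import Pool.Agent.Y319.GP.FB
import Pool.Agent.Y185.GP.HOL
import Pool.Agent.Y258.GP.MB
import Pool.Agent.Y180.GP.Mel
import Pool.Agent.Y961.GP.NS
import Pool.Agent.Y232.GP.E1
import Pool.Agent.Y86.GP.CT

set_option autoImplicit false

/-! Assembly of the project GP of the starting files. -/

namespace Pool.Agent.J6H1.ZMG

open Pool.Agent.Y969.GP

theorem gp_SM : S_SM := Pool.Agent.J6H72.ZM.a_SM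

theorem gp_AFE : S_AFE := Pool.Agent.Y891.GP.t_AFE Pool.Agent.Y587.GP.t_V Pool.Agent.Y587.GP.Chi.t_CHI

theorem gp_CR : S_CR := Pool.Agent.Y545.GP.t_CR Pool.Agent.Y587.GP.t_V

theorem gp_LSW : S_LSW := Pool.Agent.Y125.GP.t_LSW Pool.Agent.Y379.GP.t_SP

theorem gp_VAR : S_VAR :=
  Pool.Agent.Y125.GP.t_VAR Pool.Agent.Y379.GP.t_SP gp_LSW Pool.Agent.Y379.GP.t_OFF gp_CR

theorem gp_RPL : S_RPL := Pool.Agent.Y434.GP.t_RPL gp_AFE gp_SM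

theorem gp_FB : S_FB := Pool.Agent.Y319.GP.t_FB Pool.Agent.Y321.GP.t_FD
theorem gp_FHD : S_FHD := Pool.Agent.Y319.GP.t_FHD Pool.Agent.Y321.GP.t_FD
theorem gp_FHC : S_FHC := Pool.Agent.Y319.GP.t_FHC Pool.Agent.Y321.GP.t_FD
theorem gp_HOL : S_HOL := Pool.Agent.Y185.GP.t_HOL gp_FHD gp_FHC
theorem gp_HOL2 : S_HOL2 := Pool.Agent.Y185.GP.t_HOL2 gp_FHD gp_FHC
theorem gp_MB : S_MB := Pool.Agent.Y258.GPMB.t_MB gp_FB a_ZL Pool.Agent.Y79.GP.t_ZP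
theorem gp_TEL : S_TEL := Pool.Agent.Y22.GP.t_TEL Pool.Agent.Y155.GP.t_D1
theorem gp_TEL2 : S_TEL2 := Pool.Agent.Y22.GP.t_TEL2 Pool.Agent.Y155.GP.t_D2
theorem gp_MEL : S_MEL := Pool.Agent.Y180.GP.t_MEL Pool.Agent.Y587.GP.t_V

theorem gp_BRW : S_BRW := t_BRW gp_TEL gp_TEL2 gp_HOL gp_HOL2 gp_MB gp_MEL
theorem gp_RRW : S_RRW := t_RRW gp_TEL2 gp_HOL gp_HOL2 gp_MB

theorem gp_main : S_MAIN :=
  t_MAIN gp_VAR gp_RPL gp_BRW gp_RRW Pool.Agent.Y961.GP.t_NS (Pool.Agent.Y232.GP.t_E1 gp_SM)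
    (Pool.Agent.Y86.GP.t_CT Pool.Agent.Y587.GP.t_V)

end Pool.Agent.J6H1.ZMG
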