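import Pool.Agent.J6H1.ZMG.GPFin
import Pool.Agent.TH806.N4.Abs
import Pool.Agent.TH384.N4_FM
import Pool.Agent.Y969.SM.Res
import Pool.Agent.Y969.SM.Fin
import Pool.Agent.Y969.SM.Win
import Pool.Agent.Y901.SX.A1
import Pool.Agent.Y54.SX.A2
import Pool.Agent.Y81.SX.AAP
import Pool.Agent.Y76.SX.ARI
import Pool.Agent.Y369.SX.Ars
import Pool.Agent.Y604.SX.AS
import Pool.Agent.Y780.SX.Blk
import Pool.Agent.Y620.SX.CRA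
import Pool.Agent.Y77.SX.CTW
import Pool.Agent.Y978.SX.EUL
import Pool.Agent.Y983.SX.EUT
import Pool.Agent.Y360.SX.F8
import Pool.Agent.Y739.SX.FA
import Pool.Agent.Y429.SX.FB
import Pool.Agent.Y781.SX.LB
import Pool.Agent.Y852.SX.Loc
import Pool.Agent.Y686.SX.Lsm
import Pool.Agent.Y547.SX.Min
import Pool.Agent.Y812.SX.OMX
import Pool.Agent.Y953.SX.Ort
import Pool.Agent.Y475.SX.SHP
import Pool.Agent.Y81.SX.T0
import Pool.Agent.Y670.SX.TAY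
import Pool.Agent.Y293.SX.TL2
import Pool.Agent.Y726.SX.TWC
import Pool.Agent.Y4.SX.UB
import Pool.Agent.Y809.SX.UB0
import Pool.Agent.Y246.SX.W1
import Pool.Agent.Y448.SX.W2
import Pool.Agent.Y514.SX.ZE
import Pool.Agent.Y96.SX.ZM

set_option autoImplicit false

/-! Assembly of the project SX of the starting files. -/

namespace Pool.Agent.J6H1.ZMG

open Filter Topology MeasureTheory Complex
open Pool.Agent.Y969.SM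
open Pool.Agent.H306R2.SM (om cl Yf)
open Pool.Agent.H262R4.TM (Rng Ck)

theorem sx_FB (k : ℕ) (hk : 2 ≤ k) : S_FB k := Pool.Agent.Y429.SX.t_FB Pool.Agent.Y360.SX.t_F8 k hk

theorem sx_FA' (k : ℕ) (h : S_FA k) : ∀ᶠ T : ℝ in atTop, ∀ κ : ℕ, Rng T κ →
      ∫ t in Set.Ioi (0:ℝ), om κ (κ / T) t * |F0 k T t| ≤ Real.log T ^ 5 ∧
        IntegrableOn (fun t => om κ (κ / T) t * |F0 k T t|) (Set.Ioi 0) := by
  obtain ⟨C, hC, h⟩ := h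
  filter_upwards [h, Real.tendsto_log_atTop.eventually_ge_atTop C, Real.tendsto_log_atTop.eventually_ge_atTop 0]
    with T hT hL hL0 κ hκ
  obtain ⟨-, q2, -, -, q5, -⟩ := hT κ hκ
  refine ⟨q5.trans ?_, q2⟩
  calc C * Real.log T ^ 4 ≤ Real.log T * Real.log T ^ 4 := by gcongr
    _ = Real.log T ^ 5 := by ring

theorem sx_FA4 (k : ℕ) (h : S_FA k) : ∃ C : ℝ, 0 < C ∧ ∀ᶠ T : ℝ in atTop, ∀ κ : ℕ, Rng T κ →
      ∫ t in Set.Ioi (0:ℝ), om κ (κ / T) t * Xz t ^ 4 ≤ C * Real.log T ^ 4 := by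
  obtain ⟨C, hC, h⟩ := h
  refine ⟨C, hC, ?_⟩
  filter_upwards [h] with T hT κ hκ
  exact (hT κ hκ).2.2.2.2.2

theorem sx_ORT : S_ORT := Pool.Agent.Y953.SX.t_ORT Pool.Agent.Y379.GP.t_SP

theorem sx_CRA : S_CRA := Pool.Agent.Y620.SX.t_CRA Pool.Agent.Y587.GP.t_V

theorem sx_UB (k : ℕ) (hk : 2 ≤ k) : S_UB k :=
  Pool.Agent.Y4.SX.t_UB k (Pool.Agent.Y809.SX.t_UB0 Pool.Agent.Y726.SX.t_TWC
    Pool.Agent.TH384.N4_FM.t_FM Pool.Agent.Y369.SX.t_ARS k hk) (sx_FB k hk)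

theorem sx_EUL : S_EUL :=
  Pool.Agent.Y978.SX.t_EUL Pool.Agent.Y852.SX.t_LOC (Pool.Agent.Y983.SX.EUT.t_EUT Pool.Agent.Y686.SX.t_LSM)
    sx_ORT Pool.Agent.Y76.SX.t_ARI Pool.Agent.Y76.SX.t_W2B

theorem sx_WS : S_WIN ∧ S_SHP := by
  obtain ⟨k₀, hk₀⟩ := Pool.Agent.Y739.SX.t_FA
  obtain ⟨k, hkd⟩ : ∃ k, k = max k₀ 2 := ⟨_, rfl⟩
  have hk : 2 ≤ k := by rw [hkd]; exact le_max_right _ _
  have hFA : S_FA k := hk₀ k (by rw [hkd]; exact le_max_left _ _)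
  have hFB := sx_FB k hk
  have hFA' := sx_FA' k hFA
  have hAS : S_AS := Pool.Agent.Y604.SX.t_AS Pool.Agent.Y726.SX.t_TWC Pool.Agent.TH384.N4_FM.t_FM
    Pool.Agent.TH806.N4.a_ING Pool.Agent.Y901.SX.t_A1 Pool.Agent.Y54.SX.t_A2 ⟨k, hk, hFA⟩
  refine ⟨t_WIN k hFB (Pool.Agent.Y246.SX.t_W1 k hFA hFB gp_SM)
    (Pool.Agent.Y448.SX.t_W2 k hFB hFA' gp_AFE gp_SM)
    (Pool.Agent.Y547.SX.t_MIN k Pool.Agent.Y780.SX.t_BLK hFB hFA' gp_LSW gp_CR)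
    (Pool.Agent.Y670.SX.t_TAY k sx_CRA Pool.Agent.Y812.SX.t_OMX sx_ORT hFA hFB)
    (Pool.Agent.Y293.SX.t_TL2 k (sx_UB k hk) sx_ORT Pool.Agent.Y76.SX.t_ARI hFB)
    (Pool.Agent.Y81.SX.T0.t_T0 k (sx_UB k hk) hAS hFA sx_ORT Pool.Agent.Y76.SX.t_ARI
      Pool.Agent.Y76.SX.t_W2B hFB)
    Pool.Agent.Y77.SX.t_CTW Pool.Agent.Y587.GP.t_V, ?_⟩
  exact Pool.Agent.Y475.SX.t_SHP gp_SM Pool.Agent.Y77.SX.t_CTW (sx_FA4 k hFA)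

theorem sx_main : S_MAIN := t_MAIN sx_WS.1 sx_WS.2 sx_EUL Pool.Agent.Y77.SX.t_CTW

theorem sx_AA : S_AA := Pool.Agent.Y81.SX.AAP.t_AA Pool.Agent.Y852.SX.t_LOC

theorem sx_LB : S_LB := Pool.Agent.Y781.SX.t_LB Pool.Agent.Y852.SX.t_LOC

theorem sx_ZE : S_ZE := Pool.Agent.Y514.SX.t_ZE sx_AA Pool.Agent.Y96.SX.t_ZM

theorem sx_REL : S_REL := t_REL sx_main sx_LB sx_ZE

end Pool.Agent.J6H1.ZMG
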