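import Pool.Agent.Helper240.ZU.A4
import Pool.Agent.Y79.GP.ZP

set_option autoImplicit false
set_option maxHeartbeats 2000000

/-! The mean square of zeta on the vertical lines `1/2 ≤ Re s ≤ 2`, uniformly in the line. -/

namespace Pool.Agent.J6H1.ZMG

open Complex Filter Topology MeasureTheory Set

noncomputable section

/-- a power of `T` against the exponential of a small power of `T` -/
lemma exp_small (a : ℝ) (ha : 0 < a) : ∃ C : ℝ, 0 < C ∧ ∀ T : ℝ, 1 ≤ T →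
    T ^ 2 * Real.exp (-(T ^ a / 16)) ≤ C := by
  obtain ⟨m, hm⟩ := exists_nat_gt (2 / a)
  refine ⟨(m.factorial : ℝ) * 16 ^ m, by positivity, fun T hT => ?_⟩
  have hT0 : 0 < T := by linarith
  set y := T ^ a / 16 with hy
  have hy0 : 0 < y := by positivity
  have h1 : y ^ m / (m.factorial : ℝ) ≤ Real.exp y := Real.pow_div_factorial_le_exp y hy0.le m
  have h2 : T ^ 2 ≤ (16 * y) ^ m := by
    have e : 16 * y = T ^ a := by rw [hy]; ring
    rw [e, ← Real.rpow_natCast (T ^ a), ← Real.rpow_mul hT0.le, ← Real.rpow_natCast T 2]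
    refine Real.rpow_le_rpow_of_exponent_le hT ?_
    have : 2 / a < m := hm
    rw [div_lt_iff₀ ha] at this
    push_cast
    linarith
  rw [Real.exp_neg, ← div_eq_mul_inv, div_le_iff₀ (Real.exp_pos y)]
  have hf : (0:ℝ) < (m.factorial : ℝ) := by positivity
  rw [div_le_iff₀ hf] at h1
  calc T ^ 2 ≤ (16 * y) ^ m := h2
    _ = 16 ^ m * y ^ m := mul_pow _ _ _
    _ ≤ 16 ^ m * (Real.exp y * (m.factorial : ℝ)) := by gcongr
    _ = (m.factorial : ℝ) * 16 ^ m * Real.exp y := by ring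

lemma zc_ne {x v : ℝ} (hv : 1 ≤ v) : (x : ℂ) + I * v ≠ 1 := by
  intro h
  have := congrArg Complex.im h
  simp at this
  linarith

lemma zl_cont (T : ℝ) (hT : 1 ≤ T) :
    Continuous fun x : ℝ => ∫ v in (1 : ℝ)..T, ‖riemannZeta (x + I * v)‖ ^ 2 := by
  have h1 : Continuous fun x : ℝ => ∫ v in (1 : ℝ)..T, ‖riemannZeta (x + I * ((max v 1 : ℝ) : ℂ))‖ ^ 2 := by
    apply intervalIntegral.continuous_parametric_intervalIntegral_of_continuous'
    refine (Continuous.norm ?_).pow 2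
    rw [continuous_iff_continuousAt]
    intro p
    have hne : (p.1 : ℂ) + I * ((max p.2 1 : ℝ) : ℂ) ≠ 1 := zc_ne (le_max_right _ _)
    have h2 : ContinuousAt (fun p : ℝ × ℝ => (p.1 : ℂ) + I * ((max p.2 1 : ℝ) : ℂ)) p := by
      apply Continuous.continuousAt
      fun_prop
    exact ContinuousAt.comp (g := riemannZeta) (differentiableAt_riemannZeta hne).continuousAt h2
  refine h1.congr fun x => ?_
  refine intervalIntegral.integral_congr fun v hv => ?_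
  rw [uIcc_of_le hT] at hv
  simp only [max_eq_left hv.1]

/-- the lines with `1/2 < x ≤ σ2 < 1` -/
lemma zl_mid (κ σ2 : ℝ) (hκ : 0 < κ) (hκ1 : κ ≤ 1) (h2 : σ2 < 1) : ∃ C : ℝ, 0 < C ∧ ∀ x T : ℝ, 1 / 2 < x →
    x ≤ σ2 → 1 ≤ T → ∫ v in (1 : ℝ)..T, ‖riemannZeta (x + I * v)‖ ^ 2 ≤ C * T ^ (1 + κ) := by
  obtain ⟨C0, hC0, hexp⟩ := exp_small κ hκ
  set K1 : ℝ := 3 * Real.exp 4 with hK1
  have hK1p : 0 < K1 := by positivity
  have hσ : 0 < 1 - σ2 := by linarith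
  refine ⟨K1 * (√Real.pi * (1 + 2 ^ κ / κ + 4 * C0)) + 6 * Real.pi / (1 - σ2) ^ 2 + K1 * (5 * (2 * Real.pi)),
    by positivity, fun x T hx hx2 hT => ?_⟩
  have hT0 : 0 < T := by linarith
  set Y : ℝ := T ^ (1 - κ / 2) with hY
  have hY1 : 1 ≤ Y := Real.one_le_rpow hT (by linarith)
  obtain ⟨L, hL⟩ : ∃ L : ℕ, L = ⌈Y⌉₊ := ⟨_, rfl⟩
  have hLY : Y ≤ L := by rw [hL]; exact Nat.le_ceil _
  have hL2 : (L : ℝ) ≤ 2 * Y := by
    rw [hL]
    have := (Nat.ceil_lt_add_one (by linarith : 0 ≤ Y)).le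
    linarith
  have hL1r : (1 : ℝ) ≤ L := hY1.trans hLY
  have hL1 : 1 ≤ L := by exact_mod_cast hL1r
  have hL0 : (0:ℝ) < L := by linarith
  have hYT : Y ≤ T := by
    calc Y ≤ T ^ (1 : ℝ) := Real.rpow_le_rpow_of_exponent_le hT (by linarith)
      _ = T := Real.rpow_one T
  have hb := ZU.J_a4.zm_bound x σ2 x 1 T 0 L (Nat.zero_le _) hL1 hx ⟨le_rfl, hx2⟩ h2 one_pos hT hT
  have hDN : ∀ s : ℂ, ZU.DN 0 s = 0 := fun s => by simp [ZU.DN]
  have hcon : ContinuousOn (fun v : ℝ => ‖riemannZeta (x + v * I)‖ ^ 2) (Icc (-1) (T + 1)) := by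
    refine ContinuousOn.pow (ContinuousOn.norm ?_) 2
    intro v _
    have hne : (x : ℂ) + v * I ≠ 1 := by
      intro h
      have := congrArg Complex.re h
      simp at this
      linarith
    have h3 : ContinuousAt (fun v : ℝ => (x : ℂ) + v * I) v := by
      apply Continuous.continuousAt
      fun_prop
    exact (ContinuousAt.comp (g := riemannZeta) (f := fun v : ℝ => (x : ℂ) + v * I)
      (differentiableAt_riemannZeta hne).continuousAt h3).continuousWithinAt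
  have hstep : ∫ v in (1 : ℝ)..T, ‖riemannZeta (x + I * v)‖ ^ 2 ≤
      ∫ t in (-1:ℝ)..(T + 1), ‖riemannZeta ((x : ℂ) + t * I) - ZU.DN 0 ((x : ℂ) + t * I)‖ ^ 2 := by
    simp only [hDN, sub_zero]
    have e : (fun v : ℝ => ‖riemannZeta (x + I * v)‖ ^ 2) = fun v : ℝ => ‖riemannZeta (x + v * I)‖ ^ 2 := by
      funext v; rw [mul_comm]
    rw [e]
    refine intervalIntegral.integral_mono_interval (by norm_num) hT (by linarith) ?_ ?_
    · exact Eventually.of_forall fun t => by positivity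
    · exact hcon.intervalIntegrable_of_Icc (by linarith)
  refine hstep.trans (hb.trans ?_)
  -- the parts
  have hTκ : 1 ≤ T ^ κ := Real.one_le_rpow hT hκ.le
  have hT1κ : T ^ (1 + κ) = T * T ^ κ := by rw [Real.rpow_add hT0, Real.rpow_one]
  have s1 : ∑ n ∈ Finset.Ioc 0 L, (n : ℝ) ^ (-(2 * x)) ≤ (1 + 2 ^ κ / κ) * T ^ κ := by
    have h3 : ∑ n ∈ Finset.Ioc 0 L, (n : ℝ) ^ (-(2 * x)) ≤ ∑ n ∈ Finset.Icc 1 L, (n : ℝ)⁻¹ := by
      have : Finset.Ioc 0 L = Finset.Icc 1 L := rfl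
      rw [this]
      refine Finset.sum_le_sum fun n hn => ?_
      have hn1 : (1:ℝ) ≤ n := by exact_mod_cast (Finset.mem_Icc.1 hn).1
      rw [← Real.rpow_neg_one]
      exact Real.rpow_le_rpow_of_exponent_le hn1 (by linarith)
    have h4 : ∑ n ∈ Finset.Icc 1 L, (n : ℝ)⁻¹ ≤ 1 + Real.log L := by
      have := harmonic_le_one_add_log L
      rw [harmonic_eq_sum_Icc] at this
      push_cast at this
      exact this
    have h5 : Real.log L ≤ (2 ^ κ / κ) * T ^ κ := by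
      have h6 := Real.log_le_rpow_div hL0.le hκ
      refine h6.trans ?_
      have h7 : (L : ℝ) ^ κ ≤ (2 * T) ^ κ := Real.rpow_le_rpow hL0.le (by linarith) hκ.le
      rw [Real.mul_rpow (by norm_num) hT0.le] at h7
      rw [div_mul_eq_mul_div]
      gcongr
    nlinarith
  have s2 : (L : ℝ) ^ 2 * Real.exp (-(T ^ 2 / (4 * (L : ℝ) ^ 2))) ≤ 4 * C0 := by
    have h3 : T ^ κ / 16 ≤ T ^ 2 / (4 * (L : ℝ) ^ 2) := by
      rw [div_le_div_iff₀ (by norm_num) (by positivity)]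
      have h4 : (L : ℝ) ^ 2 ≤ 4 * Y ^ 2 := by nlinarith
      have h5 : T ^ κ * Y ^ 2 = T ^ 2 := by
        rw [hY, ← Real.rpow_natCast (T ^ (1 - κ / 2)), ← Real.rpow_mul hT0.le, ← Real.rpow_add hT0,
          ← Real.rpow_natCast T 2]
        congr 1
        push_cast
        ring
      have h6 : 0 ≤ T ^ κ := by positivity
      nlinarith [mul_le_mul_of_nonneg_left h4 h6]
    have h4 : (L : ℝ) ^ 2 ≤ 4 * T ^ 2 := by nlinarith
    have h5 : Real.exp (-(T ^ 2 / (4 * (L : ℝ) ^ 2))) ≤ Real.exp (-(T ^ κ / 16)) :=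
      Real.exp_le_exp.2 (by linarith)
    calc (L : ℝ) ^ 2 * Real.exp (-(T ^ 2 / (4 * (L : ℝ) ^ 2)))
        ≤ 4 * T ^ 2 * Real.exp (-(T ^ κ / 16)) := by gcongr
      _ = 4 * (T ^ 2 * Real.exp (-(T ^ κ / 16))) := by ring
      _ ≤ 4 * C0 := by linarith [hexp T hT]
  have s3 : ((L : ℝ) ^ (1 - x)) ^ 2 ≤ 2 * T := by
    rw [← Real.rpow_natCast ((L : ℝ) ^ (1 - x)), ← Real.rpow_mul hL0.le]
    calc (L : ℝ) ^ ((1 - x) * (2 : ℕ)) ≤ (L : ℝ) ^ (1 : ℝ) := by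
          refine Real.rpow_le_rpow_of_exponent_le hL1r ?_
          push_cast
          linarith
      _ = L := Real.rpow_one _
      _ ≤ 2 * T := by linarith
  have s4 : (1 + 4 * T ^ 2) * (2 * Real.pi * ((L : ℝ) ^ (-(2 * x)) / (2 * x))) ≤ 5 * (2 * Real.pi) * T ^ (1 + κ) := by
    have h3 : (L : ℝ) ^ (-(2 * x)) ≤ Y⁻¹ := by
      calc (L : ℝ) ^ (-(2 * x)) ≤ (L : ℝ) ^ (-1 : ℝ) := Real.rpow_le_rpow_of_exponent_le hL1r (by linarith)
        _ = (L : ℝ)⁻¹ := Real.rpow_neg_one _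
        _ ≤ Y⁻¹ := by gcongr
    have h4 : (L : ℝ) ^ (-(2 * x)) / (2 * x) ≤ Y⁻¹ := by
      refine (div_le_self (by positivity) (by linarith)).trans h3
    have h5 : T ^ 2 * Y⁻¹ ≤ T ^ (1 + κ) := by
      rw [hY, ← Real.rpow_neg hT0.le, ← Real.rpow_natCast T 2, ← Real.rpow_add hT0]
      refine Real.rpow_le_rpow_of_exponent_le hT ?_
      push_cast
      linarith
    have h6 : 1 + 4 * T ^ 2 ≤ 5 * T ^ 2 := by nlinarith
    have hpi := Real.pi_pos
    calc (1 + 4 * T ^ 2) * (2 * Real.pi * ((L : ℝ) ^ (-(2 * x)) / (2 * x)))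
        ≤ 5 * T ^ 2 * (2 * Real.pi * Y⁻¹) := by gcongr
      _ = 5 * (2 * Real.pi) * (T ^ 2 * Y⁻¹) := by ring
      _ ≤ 5 * (2 * Real.pi) * T ^ (1 + κ) := by gcongr
  have hpi := Real.pi_pos
  have t1 : √Real.pi * T * (∑ n ∈ Finset.Ioc 0 L, (n : ℝ) ^ (-(2 * x)) +
      (L : ℝ) ^ 2 * Real.exp (-(T ^ 2 / (4 * (L : ℝ) ^ 2)))) ≤
      √Real.pi * (1 + 2 ^ κ / κ + 4 * C0) * T ^ (1 + κ) := by
    rw [hT1κ]
    have h3 : ∑ n ∈ Finset.Ioc 0 L, (n : ℝ) ^ (-(2 * x)) +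
      (L : ℝ) ^ 2 * Real.exp (-(T ^ 2 / (4 * (L : ℝ) ^ 2))) ≤ (1 + 2 ^ κ / κ + 4 * C0) * T ^ κ := by
      have h4 : 4 * C0 * 1 ≤ 4 * C0 * T ^ κ := mul_le_mul_of_nonneg_left hTκ (by positivity)
      have h5 : (1 + 2 ^ κ / κ + 4 * C0) * T ^ κ = (1 + 2 ^ κ / κ) * T ^ κ + 4 * C0 * T ^ κ := by ring
      rw [h5]
      linarith
    have h6 : 0 ≤ √Real.pi * T := by positivity
    calc _ ≤ √Real.pi * T * ((1 + 2 ^ κ / κ + 4 * C0) * T ^ κ) := mul_le_mul_of_nonneg_left h3 h6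
      _ = _ := by ring
  have t2 : 3 * (((L : ℝ) ^ (1 - x)) ^ 2 / (1 - σ2) ^ 2) * Real.pi ≤ 6 * Real.pi / (1 - σ2) ^ 2 * T ^ (1 + κ) := by
    have h3 : T ≤ T ^ (1 + κ) := by rw [hT1κ]; nlinarith
    calc 3 * (((L : ℝ) ^ (1 - x)) ^ 2 / (1 - σ2) ^ 2) * Real.pi
        ≤ 3 * ((2 * T) / (1 - σ2) ^ 2) * Real.pi := by gcongr
      _ = 6 * Real.pi / (1 - σ2) ^ 2 * T := by ring
      _ ≤ _ := by gcongr
  have t3 : K1 * (1 + 4 * T ^ 2) * (2 * Real.pi * ((L : ℝ) ^ (-(2 * x)) / (2 * x))) ≤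
      K1 * (5 * (2 * Real.pi)) * T ^ (1 + κ) := by
    calc _ = K1 * ((1 + 4 * T ^ 2) * (2 * Real.pi * ((L : ℝ) ^ (-(2 * x)) / (2 * x)))) := by ring
      _ ≤ K1 * (5 * (2 * Real.pi) * T ^ (1 + κ)) := by gcongr
      _ = _ := by ring
  have t1' := mul_le_mul_of_nonneg_left t1 hK1p.le
  linarith

theorem a_ZL : Pool.Agent.Y969.GP.S_ZL := by
  intro κ0 hκ0
  obtain ⟨κ, hκ⟩ : ∃ κ, κ = min κ0 1 := ⟨_, rfl⟩
  have hκp : 0 < κ := by rw [hκ]; exact lt_min hκ0 one_pos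
  have hκ1 : κ ≤ 1 := by rw [hκ]; exact min_le_right _ _
  have hκ2 : κ ≤ κ0 := by rw [hκ]; exact min_le_left _ _
  obtain ⟨C1, hC1, hz⟩ := Pool.Agent.Y79.GP.t_ZP.1 (κ / 8) (by linarith) (by linarith)
  obtain ⟨C2, hC2, hm⟩ := zl_mid κ (1 - 2 * (κ / 8)) hκp hκ1 (by linarith)
  refine ⟨C1 ^ 2 + C2, by positivity, fun x T hx hx2 hT => ?_⟩
  have hT0 : 0 < T := by linarith
  have hle : T ^ (1 + κ) ≤ T ^ (1 + κ0) := Real.rpow_le_rpow_of_exponent_le hT (by linarith)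
  have hp : 0 < T ^ (1 + κ) := by positivity
  by_cases hc : 1 - 2 * (κ / 8) ≤ x
  · have h1 : ∫ v in (1 : ℝ)..T, ‖riemannZeta (x + I * v)‖ ^ 2 ≤ ∫ _v in (1 : ℝ)..T, C1 ^ 2 * T ^ κ := by
      refine intervalIntegral.integral_mono_on hT ?_ (by simp) fun v hv => ?_
      · refine ContinuousOn.intervalIntegrable ?_
        rw [uIcc_of_le hT]
        refine ContinuousOn.pow (ContinuousOn.norm ?_) 2
        intro v hv
        have hne : (x : ℂ) + I * v ≠ 1 := zc_ne hv.1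
        have h3 : ContinuousAt (fun v : ℝ => (x : ℂ) + I * v) v := by
          apply Continuous.continuousAt
          fun_prop
        exact (ContinuousAt.comp (g := riemannZeta) (f := fun v : ℝ => (x : ℂ) + I * v)
          (differentiableAt_riemannZeta hne).continuousAt h3).continuousWithinAt
      · have him : ((x : ℂ) + I * v).im = v := by simp
        have hre : ((x : ℂ) + I * v).re = x := by simp
        have hv1 : |((x : ℂ) + I * v).im| = v := by rw [him, abs_of_pos (by linarith [hv.1])]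
        have h4 := hz (x + I * v) (by rw [hre]; exact hc) (by rw [hv1]; exact hv.1)
        rw [hv1] at h4
        have hv0 : 0 ≤ v := by linarith [hv.1]
        have h5 : (v ^ (3 * (κ / 8))) ^ 2 ≤ T ^ κ := by
          rw [← Real.rpow_natCast (v ^ (3 * (κ / 8))), ← Real.rpow_mul hv0]
          calc v ^ (3 * (κ / 8) * (2 : ℕ)) ≤ v ^ κ := by
                refine Real.rpow_le_rpow_of_exponent_le hv.1 ?_
                push_cast
                linarith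
            _ ≤ T ^ κ := Real.rpow_le_rpow hv0 hv.2 hκp.le
        calc ‖riemannZeta (x + I * v)‖ ^ 2 ≤ (C1 * v ^ (3 * (κ / 8))) ^ 2 := by gcongr
          _ = C1 ^ 2 * (v ^ (3 * (κ / 8))) ^ 2 := by ring
          _ ≤ C1 ^ 2 * T ^ κ := by gcongr
    rw [intervalIntegral.integral_const, smul_eq_mul] at h1
    have h2 : (T - 1) * (C1 ^ 2 * T ^ κ) ≤ C1 ^ 2 * T ^ (1 + κ) := by
      have e : T ^ (1 + κ) = T * T ^ κ := by rw [Real.rpow_add hT0, Real.rpow_one]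
      rw [e]
      have : 0 ≤ C1 ^ 2 * T ^ κ := by positivity
      nlinarith
    calc _ ≤ C1 ^ 2 * T ^ (1 + κ) := h1.trans h2
      _ ≤ C1 ^ 2 * T ^ (1 + κ0) := by gcongr
      _ ≤ (C1 ^ 2 + C2) * T ^ (1 + κ0) := by
          have : 0 ≤ C2 * T ^ (1 + κ0) := by positivity
          nlinarith
  · push Not at hc
    have h1 : ∫ v in (1 : ℝ)..T, ‖riemannZeta (x + I * v)‖ ^ 2 ≤ C2 * T ^ (1 + κ) := by
      rcases hx.lt_or_eq with hx' | hx'
      · exact hm x T hx' hc.le hT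
      · subst hx'
        have hcont := (zl_cont T hT).tendsto (1 / 2)
        have h3 : Tendsto (fun x : ℝ => ∫ v in (1 : ℝ)..T, ‖riemannZeta (x + I * v)‖ ^ 2) (𝓝[>] (1 / 2))
            (𝓝 (∫ v in (1 : ℝ)..T, ‖riemannZeta (((1 / 2 : ℝ) : ℂ) + I * v)‖ ^ 2)) :=
          hcont.mono_left nhdsWithin_le_nhds
        refine le_of_tendsto h3 ?_
        filter_upwards [Ioo_mem_nhdsGT hc] with y hy
        exact hm y T hy.1 hy.2.le hT
    calc _ ≤ C2 * T ^ (1 + κ) := h1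
      _ ≤ C2 * T ^ (1 + κ0) := by gcongr
      _ ≤ (C1 ^ 2 + C2) * T ^ (1 + κ0) := by
          have : 0 ≤ C1 ^ 2 * T ^ (1 + κ0) := by positivity
          nlinarith

end

end Pool.Agent.J6H1.ZMG
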